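import Pool.Agent.H717.NL.Stmts2

/-!
Truncation of approximate eigenvectors of Jacobi matrices (project NL of helper717), statement `S_trunc`.
-/

set_option autoImplicit false

open Finset

namespace Pool.Agent.H278.NL

open Pool.Agent.H717.NL

/-- extension by zero -/
def E {n : ℕ} (y : Fin n → ℝ) (k : ℕ) : ℝ := if h : k < n then y ⟨k, h⟩ else 0

theorem E_fin {n : ℕ} (y : Fin n → ℝ) (p : Fin n) : E y p = y p := by
  unfold E
  rw [dif_pos p.2]

theorem E_out {n : ℕ} (y : Fin n → ℝ) {k : ℕ} (h : n ≤ k) : E y k = 0 := by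
  unfold E
  rw [dif_neg (by omega)]

/-- the term of the left neighbour -/
def pr (r Y : ℕ → ℝ) : ℕ → ℝ
  | 0 => 0
  | (p + 1) => r p * Y p

theorem pr_zero (r Y : ℕ → ℝ) : pr r Y 0 = 0 := rfl

theorem pr_succ (r Y : ℕ → ℝ) (p : ℕ) : pr r Y (p + 1) = r p * Y p := rfl

/-- `(M - t) Y` -/
def D (a r : ℕ → ℝ) (t : ℝ) (Y : ℕ → ℝ) (p : ℕ) : ℝ := (a p - t) * Y p + r p * Y (p + 1) + pr r Y p

theorem mv {n : ℕ} (a r : ℕ → ℝ) (t : ℝ) (y : Fin n → ℝ) (p : Fin n) :
    (jac n a r).mulVec y p - t * y p = D a r t (E y) p := by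
  have h1 : (jac n a r).mulVec y p = ∑ j ∈ range n, (if (p : ℕ) = j then a p else
      if (p : ℕ) + 1 = j then r p else if j + 1 = (p : ℕ) then r j else 0) * E y j := by
    rw [← Fin.sum_univ_eq_sum_range (fun j => (if (p : ℕ) = j then a p else
      if (p : ℕ) + 1 = j then r p else if j + 1 = (p : ℕ) then r j else 0) * E y j) n]
    unfold Matrix.mulVec dotProduct jac
    refine Finset.sum_congr rfl fun j _ => ?_
    rw [E_fin]
    rfl
  have h2 : ∀ j, (if (p : ℕ) = j then a p else
      if (p : ℕ) + 1 = j then r p else if j + 1 = (p : ℕ) then r j else 0) * E y j =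
      (if (p : ℕ) = j then a p * E y p else 0) + (if (p : ℕ) + 1 = j then r p * E y (p + 1) else 0) +
      (if j + 1 = (p : ℕ) then pr r (E y) p else 0) := by
    intro j
    by_cases c1 : (p : ℕ) = j
    · rw [if_pos c1, if_pos c1, if_neg (by omega), if_neg (by omega), ← c1]
      ring
    · rw [if_neg c1, if_neg c1]
      by_cases c2 : (p : ℕ) + 1 = j
      · rw [if_pos c2, if_pos c2, if_neg (by omega), ← c2]
        ring
      · rw [if_neg c2, if_neg c2]
        by_cases c3 : j + 1 = (p : ℕ)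
        · rw [if_pos c3, if_pos c3, ← c3, pr_succ]
          ring
        · rw [if_neg c3, if_neg c3]
          ring
  rw [h1, Finset.sum_congr rfl (fun j _ => h2 j), Finset.sum_add_distrib, Finset.sum_add_distrib]
  have e1 : ∑ j ∈ range n, (if (p : ℕ) = j then a p * E y p else 0) = a p * E y p := by
    rw [Finset.sum_ite_eq, if_pos (mem_range.2 p.2)]
  have e2 : ∑ j ∈ range n, (if (p : ℕ) + 1 = j then r p * E y (p + 1) else 0) =
      r p * E y (p + 1) := by
    rw [Finset.sum_ite_eq]
    by_cases c : (p : ℕ) + 1 < n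
    · rw [if_pos (mem_range.2 c)]
    · rw [if_neg (by simpa using c), E_out y (by omega), mul_zero]
  have e3 : ∑ j ∈ range n, (if j + 1 = (p : ℕ) then pr r (E y) p else 0) = pr r (E y) p := by
    obtain ⟨q, hq⟩ : ∃ q, q = (p : ℕ) := ⟨_, rfl⟩
    have hqn : q < n := by rw [hq]; exact p.2
    rw [← hq]
    rcases q with _ | q
    · rw [pr_zero]
      apply Finset.sum_eq_zero
      intro j _
      rw [if_neg (by omega)]
    · have e4 : ∀ j, (if j + 1 = q + 1 then pr r (E y) (q + 1) else 0) =
          if q = j then pr r (E y) (q + 1) else 0 := by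
        intro j
        by_cases c : q = j
        · rw [if_pos c, if_pos (by omega)]
        · rw [if_neg c, if_neg (by omega)]
      rw [Finset.sum_congr rfl (fun j _ => e4 j), Finset.sum_ite_eq,
        if_pos (mem_range.2 (by omega))]
  rw [e1, e2, e3]
  unfold D
  rw [← E_fin y p]
  ring

/-- the Wronskian -/
theorem wron (a r : ℕ → ℝ) (t : ℝ) (Y Z : ℕ → ℝ) (m : ℕ) :
    ∑ k ∈ range (m + 1), Z k * D a r t Y k - ∑ k ∈ range (m + 1), Y k * D a r t Z k =
      r m * (Y (m + 1) * Z m - Y m * Z (m + 1)) := by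
  induction m with
  | zero =>
    simp only [zero_add, Finset.sum_range_one]
    unfold D
    rw [pr_zero, pr_zero]
    ring
  | succ m ih =>
    rw [Finset.sum_range_succ, Finset.sum_range_succ _ (m + 1)]
    have e : Z (m + 1) * D a r t Y (m + 1) - Y (m + 1) * D a r t Z (m + 1) =
        r (m + 1) * (Y (m + 1 + 1) * Z (m + 1) - Y (m + 1) * Z (m + 1 + 1)) -
        r m * (Y (m + 1) * Z m - Y m * Z (m + 1)) := by
      unfold D
      rw [pr_succ, pr_succ]
      ring
    linear_combination ih + e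

theorem cs {n m : ℕ} (hm : m < n) {g : ℝ} (hg : 0 ≤ g) {F Z : ℕ → ℝ}
    (hZ : ∑ k ∈ range n, Z k ^ 2 = 1) (hF : ∑ k ∈ range n, F k ^ 2 ≤ g ^ 2) :
    |∑ k ∈ range (m + 1), Z k * F k| ≤ g := by
  apply abs_le_of_sq_le_sq _ hg
  have h1 := Finset.sum_mul_sq_le_sq_mul_sq (range (m + 1)) Z F
  have hsub : range (m + 1) ⊆ range n := by
    intro x hx
    rw [mem_range] at hx ⊢
    omega
  have h2 : ∑ k ∈ range (m + 1), Z k ^ 2 ≤ 1 := by
    rw [← hZ]
    exact Finset.sum_le_sum_of_subset_of_nonneg hsub fun _ _ _ => sq_nonneg _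
  have h3 : ∑ k ∈ range (m + 1), F k ^ 2 ≤ g ^ 2 := by
    refine le_trans ?_ hF
    exact Finset.sum_le_sum_of_subset_of_nonneg hsub fun _ _ _ => sq_nonneg _
  have h4 : 0 ≤ ∑ k ∈ range (m + 1), F k ^ 2 := Finset.sum_nonneg fun _ _ => sq_nonneg _
  calc (∑ k ∈ range (m + 1), Z k * F k) ^ 2
      ≤ (∑ k ∈ range (m + 1), Z k ^ 2) * ∑ k ∈ range (m + 1), F k ^ 2 := h1
    _ ≤ 1 * g ^ 2 := mul_le_mul h2 h3 h4 zero_le_one
    _ = g ^ 2 := one_mul _

theorem div_bd {n : ℕ} (hn : 0 < n) {x z g : ℝ} (hz : 1 / (3 * (n : ℝ)) ≤ |z|)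
    (h : |x * z| ≤ 2 * g) : |x| ≤ 6 * n * g := by
  have hn' : (0:ℝ) < n := by exact_mod_cast hn
  rw [abs_mul] at h
  have h1 : |x| * (1 / (3 * (n : ℝ))) ≤ 2 * g :=
    (mul_le_mul_of_nonneg_left hz (abs_nonneg _)).trans h
  have h2 : |x| = |x| * (1 / (3 * (n : ℝ))) * (3 * n) := by
    field_simp
  rw [h2]
  calc |x| * (1 / (3 * (n : ℝ))) * (3 * n) ≤ 2 * g * (3 * n) :=
        mul_le_mul_of_nonneg_right h1 (by positivity)
    _ = 6 * n * g := by ring

theorem fin_bd {n s : ℕ} (hs : s < n) {g c : ℝ} (hg : 0 ≤ g) (hc : |c| ≤ 6 * n * g) {F G : ℕ → ℝ}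
    (hF : ∑ k ∈ range n, F k ^ 2 ≤ g ^ 2) (hG : ∀ k, k ≠ s → (G k = F k ∨ G k = 0)) (hGs : G s = c) :
    ∑ k ∈ range n, G k ^ 2 ≤ (9 * n * g) ^ 2 := by
  have hn' : (1:ℝ) ≤ n := by exact_mod_cast (by omega : 1 ≤ n)
  have h1 : ∀ k ∈ range n, G k ^ 2 ≤ F k ^ 2 + (if s = k then (6 * n * g) ^ 2 else 0) := by
    intro k _
    by_cases hk : s = k
    · rw [if_pos hk, ← hk, hGs]
      have h2 : c ^ 2 ≤ (6 * n * g) ^ 2 := by
        rw [← sq_abs]
        exact pow_le_pow_left₀ (abs_nonneg _) hc 2
      linarith [sq_nonneg (F s)]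
    · rw [if_neg hk, add_zero]
      rcases hG k (fun h => hk h.symm) with h | h
      · rw [h]
      · rw [h]
        nlinarith [sq_nonneg (F k)]
  refine (Finset.sum_le_sum h1).trans ?_
  rw [Finset.sum_add_distrib, Finset.sum_ite_eq, if_pos (mem_range.2 hs)]
  have h2 : g ^ 2 ≤ (n * g) ^ 2 := by
    apply pow_le_pow_left₀ hg
    nlinarith
  nlinarith [sq_nonneg ((n:ℝ) * g)]

theorem t_trunc : S_trunc := by
  intro n a r t g y z s hg hy hz hfy hfz hys hzs
  have hn : 0 < n := lt_of_le_of_lt (Nat.zero_le _) s.2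
  obtain ⟨Y, hYd⟩ : ∃ Y, Y = E y := ⟨_, rfl⟩
  obtain ⟨Z, hZd⟩ : ∃ Z, Z = E z := ⟨_, rfl⟩
  have hY1 : ∑ k ∈ range n, Y k ^ 2 = 1 := by
    rw [← Fin.sum_univ_eq_sum_range (fun k => Y k ^ 2) n, ← hy]
    exact Finset.sum_congr rfl fun p _ => by rw [hYd, E_fin]
  have hZ1 : ∑ k ∈ range n, Z k ^ 2 = 1 := by
    rw [← Fin.sum_univ_eq_sum_range (fun k => Z k ^ 2) n, ← hz]
    exact Finset.sum_congr rfl fun p _ => by rw [hZd, E_fin]
  have hDY : ∑ k ∈ range n, D a r t Y k ^ 2 ≤ g ^ 2 := by
    rw [← Fin.sum_univ_eq_sum_range (fun k => D a r t Y k ^ 2) n]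
    refine le_trans (le_of_eq ?_) hfy
    exact Finset.sum_congr rfl fun p _ => by rw [hYd, mv]
  have hDZ : ∑ k ∈ range n, D a r t Z k ^ 2 ≤ g ^ 2 := by
    rw [← Fin.sum_univ_eq_sum_range (fun k => D a r t Z k ^ 2) n]
    refine le_trans (le_of_eq ?_) hfz
    exact Finset.sum_congr rfl fun p _ => by rw [hZd, mv]
  have hYs : Y s = 0 := by rw [hYd, E_fin, hys]
  have hZs : 1 / (3 * (n : ℝ)) ≤ |Z s| := by rw [hZd, E_fin]; exact hzs
  have hW : ∀ m, m < n → |r m * (Y (m + 1) * Z m - Y m * Z (m + 1))| ≤ 2 * g := by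
    intro m hm
    rw [← wron a r t Y Z m]
    have h1 := cs hm hg hZ1 hDY
    have h2 := cs hm hg hY1 hDZ
    have h3 := abs_sub (∑ k ∈ range (m + 1), Z k * D a r t Y k) (∑ k ∈ range (m + 1), Y k * D a r t Z k)
    linarith
  -- the two boundary terms
  have hR : |r s * Y (s + 1)| ≤ 6 * n * g := by
    apply div_bd hn hZs
    have h1 := hW s s.2
    rw [hYs, zero_mul, sub_zero] at h1
    rw [mul_assoc]
    exact h1
  have hL : |pr r Y s| ≤ 6 * n * g := by
    obtain ⟨q, hq⟩ : ∃ q, q = (s : ℕ) := ⟨_, rfl⟩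
    have hqn : q < n := by rw [hq]; exact s.2
    rw [← hq] at hYs hZs ⊢
    rcases q with _ | q
    · rw [pr_zero, abs_zero]
      positivity
    · rw [pr_succ]
      apply div_bd hn hZs
      have h1 := hW q (by omega)
      rw [hYs, zero_mul, zero_sub, mul_neg, abs_neg] at h1
      rw [mul_assoc]
      exact h1
  constructor
  · have e1 : ∀ p : Fin n, ((jac n a r).mulVec (fun q => if q < s then y q else 0) p
        - t * (if p < s then y p else 0)) = D a r t (fun k => if k < (s : ℕ) then Y k else 0) p := by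
      intro p
      have e2 := mv a r t (fun q => if q < s then y q else 0) p
      have e3 : E (fun q => if q < s then y q else 0) = fun k => if k < (s : ℕ) then Y k else 0 := by
        funext k
        rw [hYd]
        unfold E
        by_cases hk : k < n
        · rw [dif_pos hk, dif_pos hk]
          rfl
        · rw [dif_neg hk, dif_neg hk, ite_self]
      rw [e3] at e2
      exact e2
    rw [Finset.sum_congr rfl (fun p _ => by rw [e1 p]),
      Fin.sum_univ_eq_sum_range (fun k => D a r t (fun k => if k < (s : ℕ) then Y k else 0) k ^ 2) n]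
    apply fin_bd s.2 hg hL hDY
    · intro k hk
      rcases lt_or_gt_of_ne hk with h | h
      · left
        unfold D
        have e2 : (if k + 1 < (s : ℕ) then Y (k + 1) else 0) = Y (k + 1) := by
          by_cases h2 : k + 1 < (s : ℕ)
          · rw [if_pos h2]
          · rw [if_neg h2, show k + 1 = (s : ℕ) by omega, hYs]
        have e3 : pr r (fun k => if k < (s : ℕ) then Y k else 0) k = pr r Y k := by
          rcases k with _ | k
          · rfl
          · rw [pr_succ, pr_succ]
            rw [if_pos (by omega)]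
        rw [e3]
        simp only [if_pos h, e2]
      · right
        unfold D
        have e3 : pr r (fun k => if k < (s : ℕ) then Y k else 0) k = 0 := by
          rcases k with _ | k
          · rfl
          · rw [pr_succ]
            rw [if_neg (by omega), mul_zero]
        rw [e3]
        simp only [if_neg (show ¬ k < (s : ℕ) by omega), if_neg (show ¬ k + 1 < (s : ℕ) by omega)]
        ring
    · unfold D
      have e3 : pr r (fun k => if k < (s : ℕ) then Y k else 0) s = pr r Y s := by
        obtain ⟨q, hq⟩ : ∃ q, q = (s : ℕ) := ⟨_, rfl⟩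
        rw [← hq]
        rcases q with _ | q
        · rfl
        · rw [pr_succ, pr_succ]
          rw [if_pos (by omega)]
      rw [e3]
      simp only [lt_irrefl, if_false, if_neg (show ¬ (s : ℕ) + 1 < (s : ℕ) by omega)]
      ring
  · have e1 : ∀ p : Fin n, ((jac n a r).mulVec (fun q => if s < q then y q else 0) p
        - t * (if s < p then y p else 0)) = D a r t (fun k => if (s : ℕ) < k then Y k else 0) p := by
      intro p
      have e2 := mv a r t (fun q => if s < q then y q else 0) p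
      have e3 : E (fun q => if s < q then y q else 0) = fun k => if (s : ℕ) < k then Y k else 0 := by
        funext k
        rw [hYd]
        unfold E
        by_cases hk : k < n
        · rw [dif_pos hk, dif_pos hk]
          rfl
        · rw [dif_neg hk, dif_neg hk, ite_self]
      rw [e3] at e2
      exact e2
    rw [Finset.sum_congr rfl (fun p _ => by rw [e1 p]),
      Fin.sum_univ_eq_sum_range (fun k => D a r t (fun k => if (s : ℕ) < k then Y k else 0) k ^ 2) n]
    apply fin_bd s.2 hg hR hDY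
    · intro k hk
      rcases lt_or_gt_of_ne hk with h | h
      · right
        unfold D
        have e3 : pr r (fun k => if (s : ℕ) < k then Y k else 0) k = 0 := by
          rcases k with _ | k
          · rfl
          · rw [pr_succ]
            rw [if_neg (by omega), mul_zero]
        rw [e3]
        simp only [if_neg (show ¬ (s : ℕ) < k by omega), if_neg (show ¬ (s : ℕ) < k + 1 by omega)]
        ring
      · left
        unfold D
        have e3 : pr r (fun k => if (s : ℕ) < k then Y k else 0) k = pr r Y k := by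
          rcases k with _ | k
          · rfl
          · rw [pr_succ, pr_succ]
            by_cases h2 : (s : ℕ) < k
            · rw [if_pos h2]
            · rw [if_neg h2, show k = (s : ℕ) by omega, hYs]
        rw [e3]
        have h' : (s : ℕ) < k := h
        simp only [if_pos h', if_pos (show (s : ℕ) < k + 1 by omega)]
    · unfold D
      have e3 : pr r (fun k => if (s : ℕ) < k then Y k else 0) s = 0 := by
        obtain ⟨q, hq⟩ : ∃ q, q = (s : ℕ) := ⟨_, rfl⟩
        rw [← hq]
        rcases q with _ | q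
        · rfl
        · rw [pr_succ]
          rw [if_neg (by omega), mul_zero]
      rw [e3]
      simp only [lt_irrefl, if_false, if_pos (show (s : ℕ) < (s : ℕ) + 1 by omega)]
      ring

end Pool.Agent.H278.NL
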